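import Pool.Agent.H705.FP.Stm2

/-! Proof of MEA: the measure of the exceptional set. -/

set_option autoImplicit false

namespace Pool.Agent.H345.FP

open MeasureTheory Filter Topology Finset Pool.Agent.H705 Pool.Agent.H705.FP

theorem bern (s : ℝ) (h0 : 0 ≤ s) (h1 : s ≤ 1 / 2) (n : ℕ) :
    2 * (n : ℝ) ^ (1 - s) + ((n : ℝ) + 1) ^ (-s) ≤ 2 * ((n : ℝ) + 1) ^ (1 - s) := by
  have hx : (0 : ℝ) < (n : ℝ) + 1 := by positivity
  have hx1 : 1 / ((n : ℝ) + 1) ≤ 1 := by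
    rw [div_le_one hx]
    have : (0 : ℝ) ≤ n := Nat.cast_nonneg n
    linarith
  have hb := rpow_one_add_le_one_add_mul_self (s := -(1 / ((n : ℝ) + 1))) (p := 1 - s)
    (by linarith) (by linarith) (by linarith)
  have e1 : ((n : ℝ) + 1) * (1 + -(1 / ((n : ℝ) + 1))) = (n : ℝ) := by
    field_simp
    ring
  have e2 : (n : ℝ) ^ (1 - s) =
      ((n : ℝ) + 1) ^ (1 - s) * (1 + -(1 / ((n : ℝ) + 1))) ^ (1 - s) := by
    rw [← Real.mul_rpow hx.le (by linarith), e1]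
  have e3 : ((n : ℝ) + 1) ^ (1 - s) = ((n : ℝ) + 1) * ((n : ℝ) + 1) ^ (-s) := by
    rw [sub_eq_add_neg, Real.rpow_add hx, Real.rpow_one]
  have hp : 0 < ((n : ℝ) + 1) ^ (-s) := Real.rpow_pos_of_pos hx _
  have h2 : (n : ℝ) ^ (1 - s) ≤ ((n : ℝ) + 1) ^ (1 - s) - (1 - s) * ((n : ℝ) + 1) ^ (-s) := by
    rw [e2]
    calc _ ≤ ((n : ℝ) + 1) ^ (1 - s) * (1 + (1 - s) * -(1 / ((n : ℝ) + 1))) :=
          mul_le_mul_of_nonneg_left hb (Real.rpow_nonneg hx.le _)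
      _ = _ := by
          rw [e3]
          field_simp
          ring
  nlinarith

theorem sum_bd (s : ℝ) (h0 : 0 ≤ s) (h1 : s ≤ 1 / 2) (n : ℕ) :
    ∑ k ∈ range n, ((k : ℝ) + 1) ^ (-s) ≤ 2 * (n : ℝ) ^ (1 - s) := by
  induction n with
  | zero =>
    rw [range_zero, sum_empty]
    positivity
  | succ n ih =>
    rw [sum_range_succ]
    have := bern s h0 h1 n
    push_cast
    linarith

theorem pe_zero : RO.pe 0 = 1 / 2 := by
  unfold RO.pe
  norm_num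

theorem nf_bd (A k : ℕ) (hk : 1 ≤ k) : 1 ≤ nf A k ∧
    ((nf A k : ℕ) : ℝ) ^ (-(1 / 2 : ℝ)) ≤ 2 * (k : ℝ) ^ (-(1 / (2 * (A : ℝ) + 4))) := by
  have hk1 : (1 : ℝ) ≤ k := by exact_mod_cast hk
  have hk0 : (0 : ℝ) < k := by linarith
  set x : ℝ := (k : ℝ) ^ ((1 : ℝ) / ((A : ℝ) + 2)) with hx
  have hx1 : 1 ≤ x := Real.one_le_rpow hk1 (by positivity)
  have hn : nf A k = ⌊x⌋₊ := rfl
  have h1 : 1 ≤ ⌊x⌋₊ := (Nat.one_le_floor_iff x).2 hx1
  have h1' : (1 : ℝ) ≤ (⌊x⌋₊ : ℝ) := by exact_mod_cast h1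
  have h2 : x / 4 ≤ (⌊x⌋₊ : ℝ) := by
    have := Nat.lt_floor_add_one x
    linarith
  rw [hn]
  refine ⟨h1, ?_⟩
  have h3 : ((⌊x⌋₊ : ℕ) : ℝ) ^ (-(1 / 2 : ℝ)) ≤ (x / 4) ^ (-(1 / 2 : ℝ)) :=
    Real.rpow_le_rpow_of_nonpos (by positivity) h2 (by norm_num)
  refine h3.trans (le_of_eq ?_)
  rw [Real.div_rpow (by positivity) (by norm_num)]
  have h4 : (4 : ℝ) ^ (-(1 / 2 : ℝ)) = 1 / 2 := by
    have e : (4 : ℝ) = 2 ^ (2 : ℝ) := by norm_num
    rw [e, ← Real.rpow_mul (by norm_num)]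
    norm_num
  have h5 : x ^ (-(1 / 2 : ℝ)) = (k : ℝ) ^ (-(1 / (2 * (A : ℝ) + 4))) := by
    rw [hx, ← Real.rpow_mul hk0.le]
    congr 1
    field_simp
    ring
  rw [h4, h5]
  ring

theorem T_MEA : P_MEA := by
  intro A W S hA
  obtain ⟨-, -, hm⟩ := hA
  obtain ⟨C, hC, hb⟩ := hm 0
  set s : ℝ := 1 / (2 * (A : ℝ) + 4) with hs
  have hs0 : 0 ≤ s := by positivity
  have hs1 : s ≤ 1 / 2 := by
    rw [hs]
    apply one_div_le_one_div_of_le (by norm_num)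
    have : (0 : ℝ) ≤ A := Nat.cast_nonneg A
    linarith
  have hB : ∀ k : ℕ, 1 ≤ k → (volume : Measure ℝ) (Exc A W S ∩ Set.Icc (k : ℝ) (k + 1)) ≤
      ENNReal.ofReal (2 * C * (k : ℝ) ^ (-s)) := by
    intro k hk
    obtain ⟨h1, h2⟩ := nf_bd A k hk
    have hsub : Exc A W S ∩ Set.Icc (k : ℝ) (k + 1) ⊆
        {y : ℝ | (k : ℝ) ≤ y ∧ y ≤ k + 1 ∧ 1 ≤ |S y - RO.part W (nf A k) y|} ∪
          {(k : ℝ) + 1} := by
      intro y hy
      obtain ⟨⟨hy0, hy1⟩, hy2, hy3⟩ := hy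
      rcases eq_or_lt_of_le hy3 with h | h
      · right
        exact h
      · left
        have hfl : ⌊y⌋₊ = k := by
          rw [Nat.floor_eq_iff hy0]
          exact ⟨hy2, h⟩
        rw [hfl] at hy1
        exact ⟨hy2, hy3, hy1⟩
    calc (volume : Measure ℝ) (Exc A W S ∩ Set.Icc (k : ℝ) (k + 1))
        ≤ volume ({y : ℝ | (k : ℝ) ≤ y ∧ y ≤ k + 1 ∧ 1 ≤ |S y - RO.part W (nf A k) y|} ∪
          {(k : ℝ) + 1}) := measure_mono hsub
      _ ≤ volume {y : ℝ | (k : ℝ) ≤ y ∧ y ≤ k + 1 ∧ 1 ≤ |S y - RO.part W (nf A k) y|} +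
          volume {(k : ℝ) + 1} := measure_union_le _ _
      _ ≤ ENNReal.ofReal (C * (nf A k : ℝ) ^ (-(RO.pe 0))) := by
          rw [Real.volume_singleton, add_zero]
          exact hb k (nf A k) h1
      _ ≤ ENNReal.ofReal (2 * C * (k : ℝ) ^ (-s)) := by
          apply ENNReal.ofReal_le_ofReal
          rw [pe_zero]
          calc C * (nf A k : ℝ) ^ (-(1 / 2 : ℝ)) ≤ C * (2 * (k : ℝ) ^ (-s)) :=
                mul_le_mul_of_nonneg_left h2 hC
            _ = _ := by ring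
  refine ⟨1 + 4 * C, by positivity, ?_, ?_⟩
  · intro T hT
    have hT0 : (0 : ℝ) ≤ T := by linarith
    set n := ⌊T⌋₊ with hn
    have hnT : (n : ℝ) ≤ T := Nat.floor_le hT0
    have hsub : Exc A W S ∩ Set.Icc 0 T ⊆ ⋃ k ∈ range (n + 1), Exc A W S ∩
        Set.Icc (k : ℝ) (k + 1) := by
      intro y hy
      obtain ⟨hyE, hy2, hy3⟩ := hy
      rw [Set.mem_iUnion₂]
      refine ⟨⌊y⌋₊, ?_, hyE, Nat.floor_le hy2, (Nat.lt_floor_add_one y).le⟩
      rw [mem_range]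
      exact Nat.lt_succ_of_le (Nat.floor_le_floor hy3)
    have h0 : (volume : Measure ℝ) (Exc A W S ∩ Set.Icc ((0 : ℕ) : ℝ) ((0 : ℕ) + 1)) ≤
        ENNReal.ofReal 1 := by
      refine (measure_mono Set.inter_subset_right).trans ?_
      rw [Real.volume_Icc]
      simp
    have hp1 : 1 ≤ T ^ (1 - s) := Real.one_le_rpow hT (by linarith)
    calc (volume : Measure ℝ) (Exc A W S ∩ Set.Icc 0 T)
        ≤ volume (⋃ k ∈ range (n + 1), Exc A W S ∩ Set.Icc (k : ℝ) (k + 1)) := measure_mono hsub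
      _ ≤ ∑ k ∈ range (n + 1), volume (Exc A W S ∩ Set.Icc (k : ℝ) (k + 1)) :=
          measure_biUnion_finset_le _ _
      _ = (∑ k ∈ range n, volume (Exc A W S ∩ Set.Icc ((k + 1 : ℕ) : ℝ) ((k + 1 : ℕ) + 1))) +
          volume (Exc A W S ∩ Set.Icc ((0 : ℕ) : ℝ) ((0 : ℕ) + 1)) := by
          rw [sum_range_succ']
      _ ≤ (∑ k ∈ range n, ENNReal.ofReal (2 * C * ((k : ℝ) + 1) ^ (-s))) + ENNReal.ofReal 1 := by
          refine add_le_add (sum_le_sum fun k _ => ?_) h0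
          have := hB (k + 1) (by omega)
          rw [Nat.cast_add, Nat.cast_one] at this ⊢
          exact this
      _ = ENNReal.ofReal ((∑ k ∈ range n, 2 * C * ((k : ℝ) + 1) ^ (-s)) + 1) := by
          rw [ENNReal.ofReal_add (by positivity) (by norm_num),
            ENNReal.ofReal_sum_of_nonneg (fun k _ => by positivity)]
      _ ≤ ENNReal.ofReal ((1 + 4 * C) * T ^ (1 - s)) := by
          apply ENNReal.ofReal_le_ofReal
          rw [← mul_sum]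
          have h5 := sum_bd s hs0 hs1 n
          have h6 : (n : ℝ) ^ (1 - s) ≤ T ^ (1 - s) :=
            Real.rpow_le_rpow (Nat.cast_nonneg n) hnT (by linarith)
          have h7 : 2 * C * ∑ k ∈ range n, ((k : ℝ) + 1) ^ (-s) ≤ 2 * C * (2 * T ^ (1 - s)) :=
            mul_le_mul_of_nonneg_left (by linarith) (by positivity)
          nlinarith
  · intro k hk
    refine (hB k hk).trans (ENNReal.ofReal_le_ofReal ?_)
    refine mul_le_mul_of_nonneg_right (by linarith) (Real.rpow_nonneg (Nat.cast_nonneg k) _)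

end Pool.Agent.H345.FP
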